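import Pool.Agent.Y558.C3.Trn

set_option autoImplicit false
set_option linter.unusedVariables false

/-! The full conjecture follows from the conjecture for three variables. -/

namespace Pool.Agent.Y558.C3

open FirstOrder FirstOrder.Language
open Pool.Agent.W889.FO (FD Ax SIso siso_of iso_rel Itp Vaught VaughtF vaughtF_iff cnt bp_cnt
  cnt_equiv inf_of_card)
open Pool.Agent.W889.VC (BP cont_of_meas)
open Pool.Agent.W889.SD (Nth nth_equiv bp_nth)
open Pool.Agent.W889.FO.Itp (Cnt cylinder)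

/-- Transfer of the dichotomy. -/
theorem transfer {L L' : FirstOrder.Language.{0, 0}} (I : Itp L L') [L.IsRelational]
    [L'.IsRelational] [Countable (Σ n, L.Relations n)] {J : Type} [Countable J]
    {j : L'.Structure ℕ → J} (hj : Cnt I J j) (T : L.Theory)
    (hex : ∀ M : L.Structure ℕ, @Theory.Model L ℕ M T → ∃ S, I.W S ∧ SIso (I.D S) M)
    (hV : ∀ T' : L'.Theory, (∀ S : L'.Structure ℕ, @Theory.Model L' ℕ S T' ↔
      I.W S ∧ @Theory.Model L ℕ (I.D S) T) → Vaught L' T') : Vaught L T := by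
  classical
  obtain ⟨T', hT'⟩ := I.ax_theory T
  rcases hV T' hT' with ⟨g, hg⟩ | ⟨f, hf1, hf2, hf3⟩
  · left
    refine ⟨fun n => I.D (g n), fun M hM => ?_⟩
    obtain ⟨S, hS, hi⟩ := hex M hM
    obtain ⟨n, hn⟩ := hg S ((hT' S).2 ⟨hS, hi.symm.model hM⟩)
    exact ⟨n, hi.symm.trans (I.iso_down hS hn)⟩
  · right
    have hb : ∀ (n : ℕ) (R : L'.Relations n) (a : Fin n → ℕ),
        BP (fun y => @Structure.RelMap L' ℕ (f y) n R a) := fun n R a =>
      (hf3 n R a).isOpen.measurableSet
    have hW : ∀ y, I.W (f y) := fun y => ((hT' _).1 (hf1 y)).1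
    have hdom : ∀ u, BP (fun y => I.dom (f y) u) := fun u => I.fdom.bp hb hW (fun _ => u)
    have hD : ∀ {n : ℕ} (R : L.Relations n) (v : Fin n → ℕ),
        BP (fun y => @Structure.RelMap L ℕ (I.D (f y)) n R v) := fun {n} R v =>
      BP.ex fun u : Fin n → ℕ => (BP.all fun i => bp_nth hdom (v i) (u i)).and
        ((I.frel R).bp hb hW u)
    have : Countable (Σ n, L.Relations n × (Fin n → ℕ)) := by
      have : ∀ n, Countable (L.Relations n) := fun n =>
        (sigma_mk_injective (β := L.Relations) (i := n)).countable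
      infer_instance
    obtain ⟨κ, hκ⟩ := Countable.exists_injective_nat J
    let F : (ℕ → Bool) → ((Σ n, L.Relations n × (Fin n → ℕ)) → Bool) × ℕ := fun x =>
      (fun p => decide (@Structure.RelMap L ℕ (I.D (f x)) p.1 p.2.1 p.2.2), κ (j (f x)))
    have hF : Measurable F := by
      refine Measurable.prodMk ?_ ?_
      · refine measurable_pi_iff.2 fun p => measurable_to_bool ?_
        refine (congrArg MeasurableSet (Set.ext fun x => ?_)).mp (hD p.2.1 p.2.2)
        simp
      · refine measurable_to_countable' fun m => ?_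
        have h1 : BP (fun x => ∃ c, κ c = m ∧ j (f x) = c) :=
          BP.ex fun c => (BP.const _).and (hj.bp f hb hW c)
        refine (congrArg MeasurableSet (Set.ext fun x => ?_)).mp h1
        constructor
        · rintro ⟨c, h1, h2⟩
          show κ (j (f x)) = m
          rw [h2, h1]
        · intro h1
          exact ⟨_, h1, rfl⟩
    obtain ⟨h, h1, h2⟩ := cont_of_meas hF
    have h3 : Continuous fun x => (F (h x)).2 := continuous_snd.comp h2
    let x0 : ℕ → Bool := fun _ => false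
    obtain ⟨e, he1, he2, he3⟩ := cylinder (U := {x | (F (h x)).2 = (F (h x0)).2})
      ((isOpen_discrete {(F (h x0)).2}).preimage h3) (x0 := x0) rfl
    refine ⟨fun x => I.D (f (h (e x))), fun x => ((hT' _).1 (hf1 _)).2, fun x y hxy => ?_,
      fun n R a => ?_⟩
    · have h4 : j (f (h (e x))) = j (f (h (e y))) :=
        hκ ((he3 x).trans (he3 y).symm)
      exact he1 (h1 (hf2 _ _ (hj.up _ _ (hW _) (hW _) hxy h4)))
    · have hc : Continuous fun x => (F (h (e x))).1 ⟨n, R, a⟩ :=
        (continuous_apply (⟨n, R, a⟩ : Σ n, L.Relations n × (Fin n → ℕ))).comp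
          (continuous_fst.comp (h2.comp he2))
      have hcl : IsClopen ((fun x => (F (h (e x))).1 ⟨n, R, a⟩) ⁻¹' {true}) :=
        (isClopen_discrete {true}).preimage hc
      convert hcl using 1
      ext x
      simp [F]

variable {L : FirstOrder.Language.{0, 0}} [L.IsRelational]

theorem cnt_jk : Cnt (I L) (Option ℕ) (fun S => cnt (Jk S)) where
  up S S' h h' hi hj := by
    obtain ⟨Θ, hΘ⟩ := W.rep h
    obtain ⟨Θ', hΘ'⟩ := W.rep h'
    obtain ⟨k⟩ := cnt_equiv hj
    exact hΘ.iso hΘ' hi k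
  bp f hf hW c := by
    refine bp_cnt (fun u => ?_) c
    refine BP.and (BP.not ?_) (BP.all fun n => BP.not ?_)
    · exact hf 1 Sy.X (fun _ => u)
    · exact hf 1 (Sy.V n) (fun _ => u)

/-- the models of a theory are recognised with three variables -/
theorem ax3_theory (T : L.Theory) : Ax3 (fun S : (LE L).Structure ℕ =>
    (I L).W S ∧ @Theory.Model L ℕ ((I L).D S) T) := by
  have h1 : Ax3 (fun S : (LE L).Structure ℕ => ∀ (σ : T) s, V S 0 s →
      U S 0 (σ.1 : L.BoundedFormula Empty 0) s) :=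
    Ax3.all fun σ => (Ax3.of ((dV 0 0).imp (dU 0 _ 0))).congr fun S =>
      ⟨fun h s => h s 0 0, fun h x y z => h x⟩
  refine (ax3_W.and h1).congr fun S => ?_
  constructor
  · rintro ⟨h, h2⟩
    refine ⟨h, (@Theory.model_iff L ℕ ((I L).D S) T).2 fun σ hσ => ?_⟩
    obtain ⟨e, he⟩ := (I L).nth (S := S) h
    obtain ⟨s, hs⟩ := h.v0
    have h3 := (sem h he (σ : L.BoundedFormula Empty 0) s (fun i => i.elim0) hs
      fun i => i.elim0).1 (h2 ⟨σ, hσ⟩ s hs)
    have key : ∀ (a b : Empty → ℕ) (a' b' : Fin 0 → ℕ),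
        @BoundedFormula.Realize L ℕ ((I L).D S) _ _ σ a a' →
          @BoundedFormula.Realize L ℕ ((I L).D S) _ _ σ b b' := by
      intro a b a' b'
      rw [Subsingleton.elim a b, Subsingleton.elim a' b']
      exact id
    exact key _ _ _ _ h3
  · rintro ⟨h, h2⟩
    refine ⟨h, fun σ s hs => ?_⟩
    obtain ⟨e, he⟩ := (I L).nth (S := S) h
    refine (sem h he (σ.1 : L.BoundedFormula Empty 0) s (fun i => i.elim0) hs
      fun i => i.elim0).2 ?_
    have h3 := (@Theory.model_iff L ℕ ((I L).D S) T).1 h2 σ.1 σ.2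
    have key : ∀ (a b : Empty → ℕ) (a' b' : Fin 0 → ℕ),
        @BoundedFormula.Realize L ℕ ((I L).D S) _ _ σ.1 a a' →
          @BoundedFormula.Realize L ℕ ((I L).D S) _ _ σ.1 b b' := by
      intro a b a' b'
      rw [Subsingleton.elim a b, Subsingleton.elim a' b']
      exact id
    exact key _ _ _ _ h3

/-- The dichotomy for a theory from the dichotomy for theories with three variables. -/
theorem red3 [Countable (Σ n, L.Relations n)]
    (h : ∀ T' : (LE L).Theory, (∃ Ψ : Set (CF 3 (LE L)), (∀ ψ ∈ Ψ, ψ.Plain) ∧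
      ∀ S : (LE L).Structure ℕ, @Theory.Model (LE L) ℕ S T' ↔ ∀ ψ ∈ Ψ, Holds S ψ) →
        Vaught (LE L) T') (T : L.Theory) : Vaught L T := by
  refine transfer (I L) cnt_jk T (fun M hM => ?_) fun T' hT' => ?_
  · obtain ⟨S, Θ, hS⟩ := exists_rep M
    exact ⟨S, hS.W, hS.D⟩
  · obtain ⟨Ψ, h1, h2⟩ := ax3_theory T
    exact h T' ⟨Ψ, h1, fun S => (hT' S).trans (h2 S)⟩

/-- the language is countable -/
theorem countable_LE [Countable (Σ n, L.Relations n)] : Countable (LE L).Symbols := by
  have h1 : Countable (Σ n, L.Functions n) := by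
    have : ∀ n, IsEmpty (L.Functions n) := fun n => inferInstance
    infer_instance
  have h2 : Countable L.Symbols :=
    inferInstanceAs (Countable ((Σ n, L.Functions n) ⊕ Σ n, L.Relations n))
  have h3 : Cardinal.mk (Σ n, L.BoundedFormula Empty n) ≤ Cardinal.aleph0 := by
    refine BoundedFormula.card_le.trans ?_
    refine max_le le_rfl ?_
    rw [Cardinal.mk_eq_zero Empty]
    simp only [zero_add, Cardinal.lift_id]
    exact Cardinal.mk_le_aleph0
  have h4 : Countable (Σ n, L.BoundedFormula Empty n) := Cardinal.mk_le_aleph0_iff.1 h3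
  have h5 : Countable (Σ n, Sy L n) := by
    let g : Unit ⊕ ℕ ⊕ (Σ n, L.BoundedFormula Empty n) ⊕ (Σ n, Fin n) ⊕ ℕ → Σ n, Sy L n
      | .inl _ => ⟨1, Sy.X⟩
      | .inr (.inl n) => ⟨1, Sy.V n⟩
      | .inr (.inr (.inl p)) => ⟨1, Sy.U p.1 p.2⟩
      | .inr (.inr (.inr (.inl p))) => ⟨2, Sy.P p.1 p.2⟩
      | .inr (.inr (.inr (.inr n))) => ⟨2, Sy.R n⟩
    have hg : Function.Surjective g := by
      rintro ⟨n, R⟩
      cases R with
      | X => exact ⟨.inl (), rfl⟩
      | V n => exact ⟨.inr (.inl n), rfl⟩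
      | U n φ => exact ⟨.inr (.inr (.inl ⟨n, φ⟩)), rfl⟩
      | P n i => exact ⟨.inr (.inr (.inr (.inl ⟨n, i⟩))), rfl⟩
      | R n => exact ⟨.inr (.inr (.inr (.inr n))), rfl⟩
    exact hg.countable
  have h6 : IsEmpty (Σ n, (LE L).Functions n) := ⟨fun p => Empty.elim p.2⟩
  exact inferInstanceAs (Countable ((Σ n, (LE L).Functions n) ⊕ Σ n, Sy L n))

/-- only unary and binary symbols -/
theorem arity_LE : ∀ n, (LE L).Relations n → n = 1 ∨ n = 2 := by
  intro n R
  cases R with
  | X => exact Or.inl rfl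
  | V n => exact Or.inl rfl
  | U n φ => exact Or.inl rfl
  | P n i => exact Or.inr rfl
  | R n => exact Or.inr rfl

end Pool.Agent.Y558.C3
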