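import Pool.Agent.W889.FO.Cnt
import Pool.Agent.W889.FO.St0

set_option autoImplicit false
set_option linter.unusedVariables false

/-! Finite-variable logics with counting, and classes axiomatised with three variables. -/

namespace Pool.Agent.Y558.C3

open FirstOrder FirstOrder.Language
open Pool.Agent.W889.FO (FD Ax)

/-- First-order formulas with the variables `Fin k` and counting quantifiers: `ex i n φ` says that
at least `n` values of the variable `i` satisfy `φ`. -/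
inductive CF (k : ℕ) (L : FirstOrder.Language.{0, 0}) : Type
  | eq : Fin k → Fin k → CF k L
  | rel : {n : ℕ} → L.Relations n → (Fin n → Fin k) → CF k L
  | neg : CF k L → CF k L
  | and : CF k L → CF k L → CF k L
  | ex : Fin k → ℕ → CF k L → CF k L

/-- Formulas without counting: all quantifiers are ordinary existential quantifiers. -/
def CF.Plain {k : ℕ} {L : FirstOrder.Language.{0, 0}} : CF k L → Prop
  | .eq _ _ => True
  | .rel _ _ => True
  | .neg φ => φ.Plain
  | .and φ ψ => φ.Plain ∧ ψ.Plain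
  | .ex _ n φ => n = 1 ∧ φ.Plain

/-- Satisfaction. -/
def Sat {k : ℕ} {L : FirstOrder.Language.{0, 0}} (S : L.Structure ℕ) :
    CF k L → (Fin k → ℕ) → Prop
  | .eq i j, v => v i = v j
  | .rel R t, v => @Structure.RelMap L ℕ S _ R fun m => v (t m)
  | .neg φ, v => ¬ Sat S φ v
  | .and φ ψ, v => Sat S φ v ∧ Sat S ψ v
  | .ex i n φ, v => (n : ℕ∞) ≤ Set.encard {z : ℕ | Sat S φ (Function.update v i z)}

/-- The structure satisfies the universal closure of the formula `φ`. -/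
def Holds {k : ℕ} {L : FirstOrder.Language.{0, 0}} (S : L.Structure ℕ) (φ : CF k L) : Prop :=
  ∀ v : Fin k → ℕ, Sat S φ v

variable {L : FirstOrder.Language.{0, 0}} {k : ℕ}

theorem sat_ex1 {S : L.Structure ℕ} {i : Fin k} {φ : CF k L} {v : Fin k → ℕ} :
    Sat S (.ex i 1 φ) v ↔ ∃ z, Sat S φ (Function.update v i z) := by
  show ((1 : ℕ) : ℕ∞) ≤ Set.encard {z : ℕ | Sat S φ (Function.update v i z)} ↔ _
  rw [Nat.cast_one, Set.one_le_encard_iff_nonempty]
  exact Iff.rfl

/-- predicates definable with three variables -/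
def D3 (P : L.Structure ℕ → ℕ → ℕ → ℕ → Prop) : Prop :=
  ∃ ψ : CF 3 L, ψ.Plain ∧ ∀ S x y z, Sat S ψ ![x, y, z] ↔ P S x y z

variable {P Q : L.Structure ℕ → ℕ → ℕ → ℕ → Prop}

theorem D3.congr (h : D3 P) (hPQ : ∀ S x y z, P S x y z ↔ Q S x y z) : D3 Q := by
  obtain ⟨ψ, h1, h2⟩ := h
  exact ⟨ψ, h1, fun S x y z => (h2 S x y z).trans (hPQ S x y z)⟩

theorem D3.not (h : D3 P) : D3 (fun S x y z => ¬ P S x y z) := by
  obtain ⟨ψ, h1, h2⟩ := h
  exact ⟨.neg ψ, h1, fun S x y z => not_congr (h2 S x y z)⟩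

theorem D3.and (h : D3 P) (h' : D3 Q) : D3 (fun S x y z => P S x y z ∧ Q S x y z) := by
  obtain ⟨ψ, h1, h2⟩ := h
  obtain ⟨ψ', h1', h2'⟩ := h'
  exact ⟨.and ψ ψ', ⟨h1, h1'⟩, fun S x y z => and_congr (h2 S x y z) (h2' S x y z)⟩

theorem D3.imp (h : D3 P) (h' : D3 Q) : D3 (fun S x y z => P S x y z → Q S x y z) :=
  ((h.and h'.not).not).congr fun S x y z => by tauto

theorem D3.or (h : D3 P) (h' : D3 Q) : D3 (fun S x y z => P S x y z ∨ Q S x y z) :=
  ((h.not.and h'.not).not).congr fun S x y z => by tauto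

theorem D3.iff (h : D3 P) (h' : D3 Q) : D3 (fun S x y z => P S x y z ↔ Q S x y z) :=
  ((h.imp h').and (h'.imp h)).congr fun S x y z => by tauto

theorem D3.tr : D3 (L := L) (fun _ _ _ _ => True) :=
  ⟨.eq 0 0, trivial, fun S x y z => ⟨fun _ => trivial, fun _ => rfl⟩⟩

theorem D3.const (c : Prop) : D3 (L := L) (fun _ _ _ _ => c) := by
  by_cases h : c
  · exact D3.tr.congr fun S x y z => by simp [h]
  · exact D3.tr.not.congr fun S x y z => by simp [h]

theorem D3.eq (i j : Fin 3) : D3 (L := L) (fun _ x y z => ![x, y, z] i = ![x, y, z] j) :=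
  ⟨.eq i j, trivial, fun S x y z => Iff.rfl⟩

/-- unary relations -/
def Un (S : L.Structure ℕ) (U : L.Relations 1) (x : ℕ) : Prop :=
  @Structure.RelMap L ℕ S 1 U fun _ => x

/-- binary relations -/
def Bi (S : L.Structure ℕ) (R : L.Relations 2) (x y : ℕ) : Prop :=
  @Structure.RelMap L ℕ S 2 R ![x, y]

theorem D3.un (U : L.Relations 1) (i : Fin 3) :
    D3 (fun S x y z => Un S U (![x, y, z] i)) :=
  ⟨.rel U (fun _ => i), trivial, fun S x y z => Iff.rfl⟩

theorem D3.bi (R : L.Relations 2) (i j : Fin 3) :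
    D3 (fun S x y z => Bi S R (![x, y, z] i) (![x, y, z] j)) := by
  refine ⟨.rel R ![i, j], trivial, fun S x y z => ?_⟩
  show @Structure.RelMap L ℕ S 2 R (fun m => ![x, y, z] (![i, j] m)) ↔ _
  have : (fun m => ![x, y, z] (![i, j] m)) = ![![x, y, z] i, ![x, y, z] j] := by
    funext m
    fin_cases m <;> rfl
  rw [this]
  exact Iff.rfl

theorem D3.ex2 (h : D3 P) : D3 (fun S x y _ => ∃ z, P S x y z) := by
  obtain ⟨ψ, h1, h2⟩ := h
  refine ⟨.ex 2 1 ψ, ⟨rfl, h1⟩, fun S x y z => ?_⟩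
  rw [sat_ex1]
  refine exists_congr fun z' => ?_
  rw [← h2]
  have : Function.update ![x, y, z] 2 z' = ![x, y, z'] := by
    funext m
    fin_cases m <;> rfl
  rw [this]

theorem D3.ex1 (h : D3 P) : D3 (fun S x _ z => ∃ y, P S x y z) := by
  obtain ⟨ψ, h1, h2⟩ := h
  refine ⟨.ex 1 1 ψ, ⟨rfl, h1⟩, fun S x y z => ?_⟩
  rw [sat_ex1]
  refine exists_congr fun z' => ?_
  rw [← h2]
  have : Function.update ![x, y, z] 1 z' = ![x, z', z] := by
    funext m
    fin_cases m <;> rfl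
  rw [this]

theorem D3.ex0 (h : D3 P) : D3 (fun S _ y z => ∃ x, P S x y z) := by
  obtain ⟨ψ, h1, h2⟩ := h
  refine ⟨.ex 0 1 ψ, ⟨rfl, h1⟩, fun S x y z => ?_⟩
  rw [sat_ex1]
  refine exists_congr fun z' => ?_
  rw [← h2]
  have : Function.update ![x, y, z] 0 z' = ![z', y, z] := by
    funext m
    fin_cases m <;> rfl
  rw [this]

theorem D3.all1 (h : D3 P) : D3 (fun S x _ z => ∀ y, P S x y z) :=
  (h.not.ex1.not).congr fun S x y z => by push Not; rfl

theorem D3.all2 (h : D3 P) : D3 (fun S x y _ => ∀ z, P S x y z) :=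
  (h.not.ex2.not).congr fun S x y z => by push Not; rfl

/-- finite conjunctions -/
theorem D3.fin {n : ℕ} {P : Fin n → L.Structure ℕ → ℕ → ℕ → ℕ → Prop} (h : ∀ i, D3 (P i)) :
    D3 (fun S x y z => ∀ i, P i S x y z) := by
  induction n with
  | zero => exact D3.tr.congr fun S x y z => ⟨fun _ i => i.elim0, fun _ => trivial⟩
  | succ n ih =>
    refine ((ih fun i => h i.castSucc).and (h (Fin.last n))).congr fun S x y z => ?_
    constructor
    · rintro ⟨h1, h2⟩ i
      exact Fin.lastCases h2 h1 i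
    · exact fun h => ⟨fun i => h _, h _⟩

/-- classes of structures axiomatised by sentences with three variables -/
def Ax3 (W : L.Structure ℕ → Prop) : Prop :=
  ∃ Ψ : Set (CF 3 L), (∀ ψ ∈ Ψ, ψ.Plain) ∧ ∀ S, W S ↔ ∀ ψ ∈ Ψ, Holds S ψ

theorem Ax3.all {ι : Type} {P : ι → L.Structure ℕ → Prop} (h : ∀ i, Ax3 (P i)) :
    Ax3 (fun S => ∀ i, P i S) := by
  choose Ψ h1 h2 using h
  refine ⟨⋃ i, Ψ i, fun ψ hψ => ?_, fun S => ?_⟩
  · obtain ⟨i, hi⟩ := Set.mem_iUnion.1 hψ
    exact h1 i ψ hi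
  · constructor
    · intro h ψ hψ
      obtain ⟨i, hi⟩ := Set.mem_iUnion.1 hψ
      exact (h2 i S).1 (h i) ψ hi
    · intro h i
      exact (h2 i S).2 fun ψ hψ => h ψ (Set.mem_iUnion.2 ⟨i, hψ⟩)

theorem Ax3.congr {W W' : L.Structure ℕ → Prop} (h : Ax3 W) (hW : ∀ S, W S ↔ W' S) : Ax3 W' := by
  obtain ⟨Ψ, h1, h2⟩ := h
  exact ⟨Ψ, h1, fun S => (hW S).symm.trans (h2 S)⟩

theorem Ax3.and {W W' : L.Structure ℕ → Prop} (h : Ax3 W) (h' : Ax3 W') :
    Ax3 (fun S => W S ∧ W' S) := by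
  refine (Ax3.all (ι := Bool) (P := fun b S => cond b (W S) (W' S)) fun b => ?_).congr fun S => ?_
  · cases b
    · exact h'
    · exact h
  · constructor
    · exact fun h => ⟨h true, h false⟩
    · rintro ⟨h1, h2⟩ b
      cases b
      · exact h2
      · exact h1

theorem Ax3.of (h : D3 P) : Ax3 (fun S => ∀ x y z, P S x y z) := by
  obtain ⟨ψ, h1, h2⟩ := h
  refine ⟨{ψ}, fun φ hφ => ?_, fun S => ?_⟩
  · rw [Set.mem_singleton_iff.1 hφ]
    exact h1
  · constructor
    · intro h φ hφ v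
      rw [Set.mem_singleton_iff.1 hφ]
      have : v = ![v 0, v 1, v 2] := by
        funext m
        fin_cases m <;> rfl
      rw [this, h2]
      exact h _ _ _
    · intro h x y z
      exact (h2 S x y z).1 (h ψ rfl _)

/-- formulas without counting are first-order definable -/
theorem fd_sat : ∀ φ : CF k L, φ.Plain → FD (fun _ => True) (fun S (v : Fin k → ℕ) => Sat S φ v)
  | .eq i j, _ => FD.eq i j
  | .rel R t, _ => FD.rel R t
  | .neg φ, h => (fd_sat φ h).not
  | .and φ ψ, h => (fd_sat φ h.1).and (fd_sat ψ h.2)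
  | .ex i n φ, h => by
    obtain ⟨rfl, h⟩ := h
    have h1 := fd_sat φ h
    have h2 : FD (fun _ : L.Structure ℕ => True) (fun S (v : Fin k → ℕ) =>
        ∃ b : Unit → ℕ, Sat S φ (Function.update v i (b ()))) := by
      refine FD.ex (P := fun S (v : Fin k → ℕ) (b : Unit → ℕ) =>
        Sat S φ (Function.update v i (b ()))) ?_
      refine (h1.sub fun j : Fin k => if j = i then (Sum.inr () : Fin k ⊕ Unit)
        else Sum.inl j).congr fun S _ w => ?_
      have : (fun j : Fin k => w (if j = i then (Sum.inr () : Fin k ⊕ Unit) else Sum.inl j)) =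
          Function.update (fun j => w (Sum.inl j)) i (w (Sum.inr ())) := by
        funext j
        by_cases hj : j = i
        · subst hj
          rw [if_pos rfl, Function.update_self]
        · rw [if_neg hj, Function.update_of_ne hj]
      rw [this]
    refine h2.congr fun S _ v => ?_
    rw [sat_ex1]
    exact ⟨fun ⟨b, hb⟩ => ⟨b (), hb⟩, fun ⟨z, hz⟩ => ⟨fun _ => z, hz⟩⟩

theorem Ax3.ax {W : L.Structure ℕ → Prop} (h : Ax3 W) : Ax W := by
  obtain ⟨Ψ, h1, h2⟩ := h
  refine (Ax.all (ι := Ψ) (P := fun ψ S => Holds S ψ.1) fun ψ => ?_).congr fun S => ?_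
  · refine Ax.of ?_
    refine FD.all (P := fun S (_ : Empty → ℕ) (v : Fin 3 → ℕ) => Sat S ψ.1 v) ?_
    exact ((fd_sat ψ.1 (h1 _ ψ.2)).sub (Sum.inr : Fin 3 → Empty ⊕ Fin 3)).congr
      fun S _ w => Iff.rfl
  · rw [h2]
    exact ⟨fun h ψ hψ => h ⟨ψ, hψ⟩, fun h ψ => h ψ.1 ψ.2⟩

end Pool.Agent.Y558.C3
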