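import Pool.Agent.Y558.C3.Def

set_option autoImplicit false
set_option linter.unusedVariables false

/-! Structures of finite tuples: coding first-order theories with three variables. -/

namespace Pool.Agent.Y558.C3

open FirstOrder FirstOrder.Language
open Pool.Agent.W889.FO (FD Ax SIso siso_of Itp Vaught cnt bp_cnt cnt_equiv inf_of_card)
open Pool.Agent.W889.VC (BP cont_of_meas)
open Pool.Agent.W889.SD (Nth nth_equiv bp_nth)

variable {L : FirstOrder.Language.{0, 0}}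

/-- the symbols: elements, tuples, truth of formulas, entries, restrictions -/
inductive Sy (L : FirstOrder.Language.{0, 0}) : ℕ → Type
  | X : Sy L 1
  | V (n : ℕ) : Sy L 1
  | U (n : ℕ) (φ : L.BoundedFormula Empty n) : Sy L 1
  | P (n : ℕ) (i : Fin n) : Sy L 2
  | R (n : ℕ) : Sy L 2

/-- the language of the structures of tuples -/
def LE (L : FirstOrder.Language.{0, 0}) : FirstOrder.Language.{0, 0} := ⟨fun _ => Empty, Sy L⟩

instance (L : FirstOrder.Language.{0, 0}) : (LE L).IsRelational :=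
  fun _ => inferInstanceAs (IsEmpty Empty)

/-- the variable of a term -/
def vi [L.IsRelational] {n : ℕ} : L.Term (Empty ⊕ Fin n) → Fin n
  | .var (.inl e) => e.elim
  | .var (.inr i) => i
  | .func f _ => isEmptyElim f

/-- elements -/
def X (S : (LE L).Structure ℕ) (u : ℕ) : Prop := Un (L := LE L) S Sy.X u

/-- tuples -/
def V (S : (LE L).Structure ℕ) (n u : ℕ) : Prop := Un (L := LE L) S (Sy.V n) u

/-- truth of formulas -/
def U (S : (LE L).Structure ℕ) (n : ℕ) (φ : L.BoundedFormula Empty n) (u : ℕ) : Prop :=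
  Un (L := LE L) S (Sy.U n φ) u

/-- entries -/
def Pr (S : (LE L).Structure ℕ) (n : ℕ) (i : Fin n) (s x : ℕ) : Prop :=
  Bi (L := LE L) S (Sy.P n i) s x

/-- restrictions -/
def Rs (S : (LE L).Structure ℕ) (n t s : ℕ) : Prop := Bi (L := LE L) S (Sy.R n) t s

/-- the axioms -/
structure W [L.IsRelational] (S : (LE L).Structure ℕ) : Prop where
  xv : ∀ n u, X S u → ¬ V S n u
  vv : ∀ n m, n ≠ m → ∀ u, V S n u → ¬ V S m u
  pt : ∀ n i s x, Pr S n i s x → V S n s ∧ X S x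
  ut : ∀ n φ s, U S n φ s → V S n s
  pe : ∀ n i s, V S n s → ∃ x, Pr S n i s x
  pu : ∀ n i s x y, Pr S n i s x → Pr S n i s y → x = y
  ext : ∀ n s t, V S n s → V S n t → (∀ i, ∃ x, Pr S n i s x ∧ Pr S n i t x) → s = t
  v0 : ∃ s, V S 0 s
  cat : ∀ n s x, V S n s → X S x → ∃ t, Rs S n t s ∧ Pr S (n + 1) (Fin.last n) t x
  rs : ∀ n t s, Rs S n t s ↔ V S (n + 1) t ∧ V S n s ∧
    ∀ i : Fin n, ∃ x, Pr S n i s x ∧ Pr S (n + 1) i.castSucc t x
  fa : ∀ n s, ¬ U S n BoundedFormula.falsum s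
  eq : ∀ n (t1 t2 : L.Term (Empty ⊕ Fin n)) s, U S n (BoundedFormula.equal t1 t2) s ↔
    V S n s ∧ ∃ x, Pr S n (vi t1) s x ∧ Pr S n (vi t2) s x
  rl : ∀ (l : ℕ) (Q : L.Relations l) (n m : ℕ) (ts : Fin l → L.Term (Empty ⊕ Fin n))
    (ts' : Fin l → L.Term (Empty ⊕ Fin m)) (s t : ℕ), V S n s → V S m t →
    (∀ k, ∃ x, Pr S n (vi (ts k)) s x ∧ Pr S m (vi (ts' k)) t x) →
    (U S n (BoundedFormula.rel Q ts) s ↔ U S m (BoundedFormula.rel Q ts') t)
  im : ∀ n (φ ψ : L.BoundedFormula Empty n) s, U S n (BoundedFormula.imp φ ψ) s ↔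
    V S n s ∧ (U S n φ s → U S n ψ s)
  al : ∀ n (φ : L.BoundedFormula Empty (n + 1)) s, U S n (BoundedFormula.all φ) s ↔
    V S n s ∧ ∀ t, Rs S n t s → U S (n + 1) φ t
  inf : ∀ m, ∃ s, V S m s ∧ ∀ i j : Fin m, i ≠ j → ¬ ∃ x, Pr S m i s x ∧ Pr S m j s x

theorem dX (i : Fin 3) : D3 (L := LE L) (fun S x y z => X S (![x, y, z] i)) := D3.un _ i

theorem dV (n : ℕ) (i : Fin 3) : D3 (L := LE L) (fun S x y z => V S n (![x, y, z] i)) :=
  D3.un _ i

theorem dU (n : ℕ) (φ : L.BoundedFormula Empty n) (i : Fin 3) :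
    D3 (L := LE L) (fun S x y z => U S n φ (![x, y, z] i)) := D3.un _ i

theorem dP (n : ℕ) (k : Fin n) (i j : Fin 3) :
    D3 (L := LE L) (fun S x y z => Pr S n k (![x, y, z] i) (![x, y, z] j)) := D3.bi _ i j

theorem dR (n : ℕ) (i j : Fin 3) :
    D3 (L := LE L) (fun S x y z => Rs S n (![x, y, z] i) (![x, y, z] j)) := D3.bi _ i j

/-- the axioms use three variables only -/
theorem ax3_W [L.IsRelational] : Ax3 (W (L := L)) := by
  have a1 : Ax3 (fun S : (LE L).Structure ℕ => ∀ n u, X S u → ¬ V S n u) :=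
    Ax3.all fun n => (Ax3.of ((dX 0).imp (dV n 0).not)).congr fun S =>
      ⟨fun h u => h u 0 0, fun h x y z => h x⟩
  have a2 : Ax3 (fun S : (LE L).Structure ℕ => ∀ n m, n ≠ m → ∀ u, V S n u → ¬ V S m u) :=
    Ax3.all fun n => Ax3.all fun m =>
      (Ax3.of ((D3.const (n ≠ m)).imp ((dV n 0).imp (dV m 0).not))).congr fun S =>
      ⟨fun h hne u => h u 0 0 hne, fun h x y z hne => h hne x⟩
  have a3 : Ax3 (fun S : (LE L).Structure ℕ => ∀ n i s x, Pr S n i s x → V S n s ∧ X S x) :=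
    Ax3.all fun n => Ax3.all fun i =>
      (Ax3.of ((dP n i 0 1).imp ((dV n 0).and (dX 1)))).congr fun S =>
      ⟨fun h s x => h s x 0, fun h x y z => h x y⟩
  have a4 : Ax3 (fun S : (LE L).Structure ℕ => ∀ n φ s, U S n φ s → V S n s) :=
    Ax3.all fun n => Ax3.all fun φ => (Ax3.of ((dU n φ 0).imp (dV n 0))).congr fun S =>
      ⟨fun h s => h s 0 0, fun h x y z => h x⟩
  have a5 : Ax3 (fun S : (LE L).Structure ℕ => ∀ n i s, V S n s → ∃ x, Pr S n i s x) :=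
    Ax3.all fun n => Ax3.all fun i => (Ax3.of ((dV n 0).imp (dP n i 0 2).ex2)).congr fun S =>
      ⟨fun h s => h s 0 0, fun h x y z => h x⟩
  have a6 : Ax3 (fun S : (LE L).Structure ℕ => ∀ n i s x y, Pr S n i s x → Pr S n i s y →
      x = y) :=
    Ax3.all fun n => Ax3.all fun i =>
      (Ax3.of ((dP n i 0 1).imp ((dP n i 0 2).imp (D3.eq 1 2)))).congr fun S => Iff.rfl
  have a7 : Ax3 (fun S : (LE L).Structure ℕ => ∀ n s t, V S n s → V S n t →
      (∀ i, ∃ x, Pr S n i s x ∧ Pr S n i t x) → s = t) :=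
    Ax3.all fun n => (Ax3.of ((dV n 0).imp ((dV n 1).imp
      ((D3.fin fun i => ((dP n i 0 2).and (dP n i 1 2)).ex2).imp (D3.eq 0 1))))).congr fun S =>
      ⟨fun h s t => h s t 0, fun h x y z => h x y⟩
  have a8 : Ax3 (fun S : (LE L).Structure ℕ => ∃ s, V S 0 s) :=
    (Ax3.of (dV 0 2).ex2).congr fun S => ⟨fun h => h 0 0 0, fun h x y z => h⟩
  have a9 : Ax3 (fun S : (LE L).Structure ℕ => ∀ n s x, V S n s → X S x →
      ∃ t, Rs S n t s ∧ Pr S (n + 1) (Fin.last n) t x) :=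
    Ax3.all fun n => (Ax3.of ((dV n 0).imp ((dX 1).imp
      ((dR n 2 0).and (dP (n + 1) (Fin.last n) 2 1)).ex2))).congr fun S =>
      ⟨fun h s t => h s t 0, fun h x y z => h x y⟩
  have a10 : Ax3 (fun S : (LE L).Structure ℕ => ∀ n t s, Rs S n t s ↔ V S (n + 1) t ∧ V S n s ∧
      ∀ i : Fin n, ∃ x, Pr S n i s x ∧ Pr S (n + 1) i.castSucc t x) :=
    Ax3.all fun n => (Ax3.of ((dR n 0 1).iff ((dV (n + 1) 0).and ((dV n 1).and
      (D3.fin fun i => ((dP n i 1 2).and (dP (n + 1) i.castSucc 0 2)).ex2))))).congr fun S =>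
      ⟨fun h s t => h s t 0, fun h x y z => h x y⟩
  have a11 : Ax3 (fun S : (LE L).Structure ℕ => ∀ n s, ¬ U S n BoundedFormula.falsum s) :=
    Ax3.all fun n => (Ax3.of (dU n _ 0).not).congr fun S =>
      ⟨fun h s => h s 0 0, fun h x y z => h x⟩
  have a12 : Ax3 (fun S : (LE L).Structure ℕ => ∀ n (t1 t2 : L.Term (Empty ⊕ Fin n)) s,
      U S n (BoundedFormula.equal t1 t2) s ↔
        V S n s ∧ ∃ x, Pr S n (vi t1) s x ∧ Pr S n (vi t2) s x) :=
    Ax3.all fun n => Ax3.all fun t1 => Ax3.all fun t2 =>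
      (Ax3.of ((dU n (BoundedFormula.equal t1 t2) 0).iff ((dV n 0).and
        ((dP n (vi t1) 0 2).and (dP n (vi t2) 0 2)).ex2))).congr fun S =>
      ⟨fun h s => h s 0 0, fun h x y z => h x⟩
  have a13 : Ax3 (fun S : (LE L).Structure ℕ => ∀ (l : ℕ) (Q : L.Relations l) (n m : ℕ)
      (ts : Fin l → L.Term (Empty ⊕ Fin n)) (ts' : Fin l → L.Term (Empty ⊕ Fin m)) (s t : ℕ),
      V S n s → V S m t → (∀ k, ∃ x, Pr S n (vi (ts k)) s x ∧ Pr S m (vi (ts' k)) t x) →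
      (U S n (BoundedFormula.rel Q ts) s ↔ U S m (BoundedFormula.rel Q ts') t)) :=
    Ax3.all fun l => Ax3.all fun Q => Ax3.all fun n => Ax3.all fun m => Ax3.all fun ts =>
      Ax3.all fun ts' => (Ax3.of ((dV n 0).imp ((dV m 1).imp ((D3.fin fun k =>
        ((dP n (vi (ts k)) 0 2).and (dP m (vi (ts' k)) 1 2)).ex2).imp
          ((dU n (BoundedFormula.rel Q ts) 0).iff (dU m (BoundedFormula.rel Q ts') 1)))))).congr
      fun S => ⟨fun h s t => h s t 0, fun h x y z => h x y⟩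
  have a14 : Ax3 (fun S : (LE L).Structure ℕ => ∀ n (φ ψ : L.BoundedFormula Empty n) s,
      U S n (BoundedFormula.imp φ ψ) s ↔ V S n s ∧ (U S n φ s → U S n ψ s)) :=
    Ax3.all fun n => Ax3.all fun φ => Ax3.all fun ψ =>
      (Ax3.of ((dU n (BoundedFormula.imp φ ψ) 0).iff ((dV n 0).and
        ((dU n φ 0).imp (dU n ψ 0))))).congr fun S =>
      ⟨fun h s => h s 0 0, fun h x y z => h x⟩
  have a15 : Ax3 (fun S : (LE L).Structure ℕ => ∀ n (φ : L.BoundedFormula Empty (n + 1)) s,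
      U S n (BoundedFormula.all φ) s ↔ V S n s ∧ ∀ t, Rs S n t s → U S (n + 1) φ t) :=
    Ax3.all fun n => Ax3.all fun φ =>
      (Ax3.of ((dU n (BoundedFormula.all φ) 0).iff ((dV n 0).and
        ((dR n 2 0).imp (dU (n + 1) φ 2)).all2))).congr fun S =>
      ⟨fun h s => h s 0 0, fun h x y z => h x⟩
  have a16 : Ax3 (fun S : (LE L).Structure ℕ => ∀ m, ∃ s, V S m s ∧ ∀ i j : Fin m, i ≠ j →
      ¬ ∃ x, Pr S m i s x ∧ Pr S m j s x) :=
    Ax3.all fun m => (Ax3.of ((dV m 0).and (D3.fin fun i => D3.fin fun j =>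
      (D3.const (i ≠ j)).imp ((dP m i 0 2).and (dP m j 0 2)).ex2.not)).ex0).congr fun S =>
      ⟨fun h => h 0 0 0, fun h x y z => h⟩
  refine ((a1.and (a2.and (a3.and (a4.and (a5.and (a6.and (a7.and a8))))))).and
    (a9.and (a10.and (a11.and (a12.and (a13.and (a14.and (a15.and a16)))))))).congr
    fun S => ⟨?_, ?_⟩
  · rintro ⟨⟨h1, h2, h3, h4, h5, h6, h7, h8⟩, h9, h10, h11, h12, h13, h14, h15, h16⟩
    exact ⟨h1, h2, h3, h4, h5, h6, h7, h8, h9, h10, h11, h12, h13, h14, h15, h16⟩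
  · rintro ⟨h1, h2, h3, h4, h5, h6, h7, h8, h9, h10, h11, h12, h13, h14, h15, h16⟩
    exact ⟨⟨h1, h2, h3, h4, h5, h6, h7, h8⟩, h9, h10, h11, h12, h13, h14, h15, h16⟩

/-- tuples exist -/
theorem W.tup [L.IsRelational] {S : (LE L).Structure ℕ} (h : W S) :
    ∀ (n : ℕ) (x : Fin n → ℕ), (∀ i, X S (x i)) → ∃ s, V S n s ∧ ∀ i, Pr S n i s (x i) := by
  intro n
  induction n with
  | zero =>
    intro x _
    obtain ⟨s, hs⟩ := h.v0
    exact ⟨s, hs, fun i => i.elim0⟩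
  | succ n ih =>
    intro x hx
    obtain ⟨s, hs, hsx⟩ := ih (fun i => x i.castSucc) fun i => hx _
    obtain ⟨t, ht, htx⟩ := h.cat n s (x (Fin.last n)) hs (hx _)
    obtain ⟨h1, h2, h3⟩ := (h.rs n t s).1 ht
    refine ⟨t, h1, fun i => Fin.lastCases htx (fun i => ?_) i⟩
    obtain ⟨y, hy1, hy2⟩ := h3 i
    rw [h.pu n i s _ _ (hsx i) hy1]
    exact hy2

theorem W.tup_unique [L.IsRelational] {S : (LE L).Structure ℕ} (h : W S) {n : ℕ}
    {x : Fin n → ℕ} {s t : ℕ} (hs : V S n s) (ht : V S n t) (h1 : ∀ i, Pr S n i s (x i))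
    (h2 : ∀ i, Pr S n i t (x i)) : s = t :=
  h.ext n s t hs ht fun i => ⟨x i, h1 i, h2 i⟩

/-- the interpretation -/
def I (L : FirstOrder.Language.{0, 0}) [L.IsRelational] : Itp L (LE L) where
  W := W
  axW := ax3_W.ax
  dom S u := X S u
  rel {l} Q S u := ∃ s, V S l s ∧ (∀ k, Pr S l k s (u k)) ∧
    U S l (BoundedFormula.rel Q fun k => Term.var (Sum.inr k)) s
  fdom := FD.rel (L := LE L) Sy.X (fun _ => ())
  frel {l} Q := by
    have h1 : FD (L := LE L) W (fun S (w : (Fin l) ⊕ Unit → ℕ) =>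
        V S l (w (Sum.inr ())) ∧ (∀ k, Pr S l k (w (Sum.inr ())) (w (Sum.inl k))) ∧
        U S l (BoundedFormula.rel Q fun k => Term.var (Sum.inr k)) (w (Sum.inr ()))) := by
      refine (FD.rel (L := LE L) (Sy.V l) (fun _ => Sum.inr ())).and ((FD.fin fun k => ?_).and
        (FD.rel (L := LE L) (Sy.U l _) (fun _ => Sum.inr ())))
      refine (FD.rel (L := LE L) (Sy.P l k) ![Sum.inr (), Sum.inl k]).congr fun S _ w => ?_
      have e : (fun i => w ((![Sum.inr (), Sum.inl k] : Fin 2 → Fin l ⊕ Unit) i)) =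
          ![w (Sum.inr ()), w (Sum.inl k)] := by
        funext i
        fin_cases i <;> rfl
      show @Structure.RelMap (LE L) ℕ S 2 (Sy.P l k) (fun i => w _) ↔ _
      rw [e]
      exact Iff.rfl
    refine (FD.ex (P := fun S (v : Fin l → ℕ) (b : Unit → ℕ) => V S l (b ()) ∧
      (∀ k, Pr S l k (b ()) (v k)) ∧
        U S l (BoundedFormula.rel Q fun k => Term.var (Sum.inr k)) (b ())) h1).congr
      fun S _ v => ?_
    exact ⟨fun ⟨b, hb⟩ => ⟨b (), hb⟩, fun ⟨s, hs⟩ => ⟨fun _ => s, hs⟩⟩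
  inf S h N := by
    refine inf_of_card (P := X S) (fun m => ?_) N
    obtain ⟨s, hs, hd⟩ := h.inf m
    choose x hx using fun i => h.pe m i s hs
    refine ⟨x, fun i j hij => ?_, fun i => (h.pt m i s _ (hx i)).2⟩
    by_contra hne
    exact hd i j hne ⟨x i, hx i, hij ▸ hx j⟩

end Pool.Agent.Y558.C3
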