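import Pool.Agent.Y558.C3.Enc

set_option autoImplicit false
set_option linter.unusedVariables false

/-! The structures of tuples are determined by the interpreted structure. -/

namespace Pool.Agent.Y558.C3

open FirstOrder FirstOrder.Language
open Pool.Agent.W889.FO (FD Ax SIso siso_of iso_rel Itp Vaught cnt bp_cnt cnt_equiv inf_of_card)
open Pool.Agent.W889.VC (BP cont_of_meas)
open Pool.Agent.W889.SD (Nth nth_equiv bp_nth)

variable {L : FirstOrder.Language.{0, 0}}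

/-- points of the structures of tuples, with `K` for the junk -/
abbrev Pt (K : Type) : Type := (ℕ ⊕ Σ n, (Fin n → ℕ)) ⊕ K

/-- elements -/
abbrev el {K : Type} (a : ℕ) : Pt K := .inl (.inl a)

/-- tuples -/
abbrev tu {K : Type} {n : ℕ} (s : Fin n → ℕ) : Pt K := .inl (.inr ⟨n, s⟩)

theorem tu_inj {K : Type} {n : ℕ} {s t : Fin n → ℕ} (h : (tu s : Pt K) = tu t) : s = t := by
  have h1 := Sum.inr_injective (Sum.inl_injective h)
  exact eq_of_heq (Sigma.mk.inj_iff.1 h1).2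

theorem tu_len {K : Type} {n m : ℕ} {s : Fin n → ℕ} {t : Fin m → ℕ} (h : (tu s : Pt K) = tu t) :
    n = m := by
  have h1 := Sum.inr_injective (Sum.inl_injective h)
  exact congrArg Sigma.fst h1

/-- truth in a structure -/
abbrev Re (M : L.Structure ℕ) {n : ℕ} (φ : L.BoundedFormula Empty n) (s : Fin n → ℕ) : Prop :=
  @BoundedFormula.Realize L ℕ M Empty n φ (fun e => e.elim) s

/-- `S` is the structure of the tuples of `M` -/
structure Rep (S : (LE L).Structure ℕ) (M : L.Structure ℕ) (K : Type) (Θ : Pt K ≃ ℕ) :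
    Prop where
  hX : ∀ v, X S (Θ v) ↔ ∃ a, v = el a
  hV : ∀ n v, V S n (Θ v) ↔ ∃ s : Fin n → ℕ, v = tu s
  hU : ∀ n φ v, U S n φ (Θ v) ↔ ∃ s : Fin n → ℕ, v = tu s ∧ Re M φ s
  hP : ∀ n i v w, Pr S n i (Θ v) (Θ w) ↔ ∃ s : Fin n → ℕ, v = tu s ∧ w = el (s i)
  hR : ∀ n v w, Rs S n (Θ v) (Θ w) ↔ ∃ t : Fin (n + 1) → ℕ, v = tu t ∧
    w = tu (fun i => t i.castSucc)

section
variable {S : (LE L).Structure ℕ} {M : L.Structure ℕ} {K : Type} {Θ : Pt K ≃ ℕ}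

theorem Rep.hU' (h : Rep S M K Θ) {n : ℕ} (φ : L.BoundedFormula Empty n) (s : Fin n → ℕ) :
    U S n φ (Θ (tu s)) ↔ Re M φ s := by
  rw [h.hU]
  constructor
  · rintro ⟨t, h1, h2⟩
    rw [tu_inj h1]
    exact h2
  · exact fun h => ⟨s, rfl, h⟩

theorem Rep.hP' (h : Rep S M K Θ) {n : ℕ} (i : Fin n) (s : Fin n → ℕ) (w : Pt K) :
    Pr S n i (Θ (tu s)) (Θ w) ↔ w = el (s i) := by
  rw [h.hP]
  constructor
  · rintro ⟨t, h1, h2⟩
    rw [tu_inj h1]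
    exact h2
  · exact fun h => ⟨s, rfl, h⟩

theorem Rep.hR' (h : Rep S M K Θ) {n : ℕ} (v : Pt K) (s : Fin n → ℕ) :
    Rs S n (Θ v) (Θ (tu s)) ↔ ∃ a, v = tu (Fin.snoc (α := fun _ => ℕ) s a) := by
  rw [h.hR]
  constructor
  · rintro ⟨t, h1, h2⟩
    refine ⟨t (Fin.last n), ?_⟩
    rw [h1, tu_inj h2]
    congr 3
    exact (Fin.snoc_init_self t).symm
  · rintro ⟨a, h1⟩
    refine ⟨_, h1, ?_⟩
    congr 3
    funext i
    rw [Fin.snoc_castSucc]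

theorem re_var [L.IsRelational] {n : ℕ} (t : L.Term (Empty ⊕ Fin n)) (v : Fin n → ℕ) :
    @Term.realize L ℕ M _ (Sum.elim (fun e => e.elim) v) t = v (vi t) := by
  rcases t with (e | i) | ⟨f, _⟩
  · exact e.elim
  · rfl
  · exact isEmptyElim f

theorem re_eq [L.IsRelational] {n : ℕ} (t1 t2 : L.Term (Empty ⊕ Fin n)) (v : Fin n → ℕ) :
    Re M (BoundedFormula.equal t1 t2) v ↔ v (vi t1) = v (vi t2) := by
  show @Term.realize L ℕ M _ (Sum.elim (fun e => e.elim) v) t1 =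
    @Term.realize L ℕ M _ (Sum.elim (fun e => e.elim) v) t2 ↔ _
  rw [re_var, re_var]

theorem re_rel [L.IsRelational] {n l : ℕ} (Q : L.Relations l)
    (ts : Fin l → L.Term (Empty ⊕ Fin n)) (v : Fin n → ℕ) :
    Re M (BoundedFormula.rel Q ts) v ↔ @Structure.RelMap L ℕ M l Q fun k => v (vi (ts k)) := by
  show @Structure.RelMap L ℕ M l Q (fun k =>
    @Term.realize L ℕ M _ (Sum.elim (fun e => e.elim) v) (ts k)) ↔ _
  have : (fun k => @Term.realize L ℕ M _ (Sum.elim (fun e => e.elim) v) (ts k)) =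
      fun k => v (vi (ts k)) := funext fun k => re_var _ _
  rw [this]

theorem Rep.W [L.IsRelational] (h : Rep S M K Θ) : W S := by
  have hs : ∀ u, ∃ v, Θ v = u := fun u => Θ.surjective u
  refine ⟨?_, ?_, ?_, ?_, ?_, ?_, ?_, ?_, ?_, ?_, ?_, ?_, ?_, ?_, ?_, ?_⟩
  · intro n u h1 h2
    obtain ⟨v, rfl⟩ := hs u
    obtain ⟨a, rfl⟩ := (h.hX v).1 h1
    obtain ⟨s, h3⟩ := (h.hV n _).1 h2
    exact absurd (Sum.inl_injective h3) (by simp)
  · intro n m hnm u h1 h2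
    obtain ⟨v, rfl⟩ := hs u
    obtain ⟨s, rfl⟩ := (h.hV n v).1 h1
    obtain ⟨t, h3⟩ := (h.hV m _).1 h2
    exact hnm (tu_len h3)
  · intro n i s x h1
    obtain ⟨v, rfl⟩ := hs s
    obtain ⟨w, rfl⟩ := hs x
    obtain ⟨s, rfl, rfl⟩ := (h.hP n i v w).1 h1
    exact ⟨(h.hV n _).2 ⟨s, rfl⟩, (h.hX _).2 ⟨_, rfl⟩⟩
  · intro n φ s h1
    obtain ⟨v, rfl⟩ := hs s
    obtain ⟨s, rfl, -⟩ := (h.hU n φ v).1 h1
    exact (h.hV n _).2 ⟨s, rfl⟩
  · intro n i s h1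
    obtain ⟨v, rfl⟩ := hs s
    obtain ⟨s, rfl⟩ := (h.hV n v).1 h1
    exact ⟨Θ (el (s i)), (h.hP n i _ _).2 ⟨s, rfl, rfl⟩⟩
  · intro n i s x y h1 h2
    obtain ⟨v, rfl⟩ := hs s
    obtain ⟨w, rfl⟩ := hs x
    obtain ⟨w', rfl⟩ := hs y
    obtain ⟨s, rfl, rfl⟩ := (h.hP n i v w).1 h1
    rw [(h.hP' i s w').1 h2]
  · intro n s t h1 h2 h3
    obtain ⟨v, rfl⟩ := hs s
    obtain ⟨w, rfl⟩ := hs t
    obtain ⟨s, rfl⟩ := (h.hV n v).1 h1
    obtain ⟨t, rfl⟩ := (h.hV n w).1 h2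
    have : s = t := by
      funext i
      obtain ⟨x, h4, h5⟩ := h3 i
      obtain ⟨y, rfl⟩ := hs x
      have e1 := (h.hP' i s y).1 h4
      have e2 := (h.hP' i t y).1 h5
      exact Sum.inl_injective (Sum.inl_injective (e1.symm.trans e2))
    rw [this]
  · exact ⟨Θ (tu (fun i : Fin 0 => i.elim0)), (h.hV 0 _).2 ⟨_, rfl⟩⟩
  · intro n s x h1 h2
    obtain ⟨v, rfl⟩ := hs s
    obtain ⟨w, rfl⟩ := hs x
    obtain ⟨s, rfl⟩ := (h.hV n v).1 h1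
    obtain ⟨a, rfl⟩ := (h.hX w).1 h2
    refine ⟨Θ (tu (Fin.snoc (α := fun _ => ℕ) s a)), (h.hR' _ s).2 ⟨a, rfl⟩,
      (h.hP' _ _ _).2 ?_⟩
    rw [Fin.snoc_last]
  · intro n t s
    obtain ⟨v, rfl⟩ := hs t
    obtain ⟨w, rfl⟩ := hs s
    constructor
    · intro h1
      obtain ⟨t, rfl, rfl⟩ := (h.hR n v w).1 h1
      exact ⟨(h.hV _ _).2 ⟨t, rfl⟩, (h.hV _ _).2 ⟨_, rfl⟩, fun i => ⟨Θ (el (t i.castSucc)),
        (h.hP' _ _ _).2 rfl, (h.hP' _ _ _).2 rfl⟩⟩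
    · rintro ⟨h1, h2, h3⟩
      obtain ⟨t, rfl⟩ := (h.hV _ v).1 h1
      obtain ⟨s, rfl⟩ := (h.hV _ w).1 h2
      refine (h.hR n _ _).2 ⟨t, rfl, ?_⟩
      have : s = fun i => t i.castSucc := by
        funext i
        obtain ⟨x, h4, h5⟩ := h3 i
        obtain ⟨y, rfl⟩ := hs x
        have e1 := (h.hP' i s y).1 h4
        have e2 := (h.hP' _ t y).1 h5
        exact Sum.inl_injective (Sum.inl_injective (e1.symm.trans e2))
      rw [this]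
  · intro n s h1
    obtain ⟨v, rfl⟩ := hs s
    obtain ⟨s, rfl, h2⟩ := (h.hU n _ v).1 h1
    exact h2
  · intro n t1 t2 s
    obtain ⟨v, rfl⟩ := hs s
    constructor
    · intro h1
      obtain ⟨s, rfl, h2⟩ := (h.hU n _ v).1 h1
      rw [re_eq] at h2
      exact ⟨(h.hV _ _).2 ⟨s, rfl⟩, Θ (el (s (vi t1))), (h.hP' _ _ _).2 rfl,
        (h.hP' _ _ _).2 (by rw [h2])⟩
    · rintro ⟨h1, x, h2, h3⟩
      obtain ⟨s, rfl⟩ := (h.hV _ v).1 h1
      obtain ⟨w, rfl⟩ := hs x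
      rw [h.hU', re_eq]
      exact Sum.inl_injective (Sum.inl_injective
        (((h.hP' _ _ _).1 h2).symm.trans ((h.hP' _ _ _).1 h3)))
  · intro l Q n m ts ts' s t h1 h2 h3
    obtain ⟨v, rfl⟩ := hs s
    obtain ⟨w, rfl⟩ := hs t
    obtain ⟨s, rfl⟩ := (h.hV _ v).1 h1
    obtain ⟨t, rfl⟩ := (h.hV _ w).1 h2
    rw [h.hU', h.hU', re_rel, re_rel]
    have : (fun k => s (vi (ts k))) = fun k => t (vi (ts' k)) := by
      funext k
      obtain ⟨x, h4, h5⟩ := h3 k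
      obtain ⟨y, rfl⟩ := hs x
      exact Sum.inl_injective (Sum.inl_injective
        (((h.hP' _ _ _).1 h4).symm.trans ((h.hP' _ _ _).1 h5)))
    rw [this]
  · intro n φ ψ s
    obtain ⟨v, rfl⟩ := hs s
    constructor
    · intro h1
      obtain ⟨s, rfl, h2⟩ := (h.hU n _ v).1 h1
      refine ⟨(h.hV _ _).2 ⟨s, rfl⟩, fun h3 => ?_⟩
      rw [h.hU'] at h3 ⊢
      exact h2 h3
    · rintro ⟨h1, h2⟩
      obtain ⟨s, rfl⟩ := (h.hV _ v).1 h1
      rw [h.hU', h.hU'] at h2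
      rw [h.hU']
      exact h2
  · intro n φ s
    obtain ⟨v, rfl⟩ := hs s
    constructor
    · intro h1
      obtain ⟨s, rfl, h2⟩ := (h.hU n _ v).1 h1
      refine ⟨(h.hV _ _).2 ⟨s, rfl⟩, fun t ht => ?_⟩
      obtain ⟨w, rfl⟩ := hs t
      obtain ⟨a, rfl⟩ := (h.hR' w s).1 ht
      rw [h.hU']
      exact h2 a
    · rintro ⟨h1, h2⟩
      obtain ⟨s, rfl⟩ := (h.hV _ v).1 h1
      rw [h.hU']
      intro a
      have h3 := h2 (Θ (tu (Fin.snoc (α := fun _ => ℕ) s a))) ((h.hR' _ s).2 ⟨a, rfl⟩)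
      rw [h.hU'] at h3
      exact h3
  · intro m
    refine ⟨Θ (tu (fun i : Fin m => i.val)), (h.hV _ _).2 ⟨_, rfl⟩, fun i j hij => ?_⟩
    rintro ⟨x, h1, h2⟩
    obtain ⟨w, rfl⟩ := hs x
    have h3 := Sum.inl_injective (Sum.inl_injective
        (((h.hP' _ _ _).1 h1).symm.trans ((h.hP' _ _ _).1 h2)))
    exact hij (Fin.ext h3)

end

end Pool.Agent.Y558.C3
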