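import Pool.Agent.Y558.C3.Rep

set_option autoImplicit false
set_option linter.unusedVariables false

/-! Transfer of the dichotomy. -/

namespace Pool.Agent.Y558.C3

open FirstOrder FirstOrder.Language
open Pool.Agent.W889.FO (FD Ax SIso siso_of iso_rel Itp Vaught cnt bp_cnt cnt_equiv inf_of_card)
open Pool.Agent.W889.VC (BP cont_of_meas)
open Pool.Agent.W889.SD (Nth nth_equiv bp_nth)

variable {L : FirstOrder.Language.{0, 0}}

/-- every structure has a structure of tuples -/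
theorem exists_rep (M : L.Structure ℕ) : ∃ (S : (LE L).Structure ℕ) (Θ : Pt Empty ≃ ℕ),
    Rep S M Empty Θ := by
  have : Infinite (Pt Empty) := Infinite.of_injective (fun a : ℕ => (el a : Pt Empty))
    fun a b h => Sum.inl_injective (Sum.inl_injective h)
  obtain ⟨Θ⟩ : Nonempty (Pt Empty ≃ ℕ) := nonempty_equiv_of_countable
  let S : (LE L).Structure ℕ :=
    { funMap := fun {_} f => isEmptyElim f
      RelMap := fun {n} R v => match n, R, v with
        | _, Sy.X, v => ∃ a, Θ.symm (v (0 : Fin 1)) = el a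
        | _, Sy.V n, v => ∃ s : Fin n → ℕ, Θ.symm (v (0 : Fin 1)) = tu s
        | _, Sy.U n φ, v => ∃ s : Fin n → ℕ, Θ.symm (v (0 : Fin 1)) = tu s ∧ Re M φ s
        | _, Sy.P n i, v => ∃ s : Fin n → ℕ, Θ.symm (v (0 : Fin 2)) = tu s ∧
            Θ.symm (v (1 : Fin 2)) = el (s i)
        | _, Sy.R n, v => ∃ t : Fin (n + 1) → ℕ, Θ.symm (v (0 : Fin 2)) = tu t ∧
            Θ.symm (v (1 : Fin 2)) = tu (fun i => t i.castSucc) }
  refine ⟨S, Θ, ⟨fun v => ?_, fun n v => ?_, fun n φ v => ?_, fun n i v w => ?_,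
    fun n v w => ?_⟩⟩
  · show (∃ a, Θ.symm (Θ v) = el a) ↔ _
    rw [Equiv.symm_apply_apply]
  · show (∃ s : Fin n → ℕ, Θ.symm (Θ v) = tu s) ↔ _
    rw [Equiv.symm_apply_apply]
  · show (∃ s : Fin n → ℕ, Θ.symm (Θ v) = tu s ∧ Re M φ s) ↔ _
    rw [Equiv.symm_apply_apply]
  · show (∃ s : Fin n → ℕ, Θ.symm (Θ v) = tu s ∧ Θ.symm (Θ w) = el (s i)) ↔ _
    rw [Equiv.symm_apply_apply, Equiv.symm_apply_apply]
  · show (∃ t : Fin (n + 1) → ℕ, Θ.symm (Θ v) = tu t ∧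
      Θ.symm (Θ w) = tu (fun i => t i.castSucc)) ↔ _
    rw [Equiv.symm_apply_apply, Equiv.symm_apply_apply]

section
variable {S S' : (LE L).Structure ℕ} {M M' : L.Structure ℕ} {K K' : Type} {Θ : Pt K ≃ ℕ}
  {Θ' : Pt K' ≃ ℕ}

/-- isomorphic structures have the same truths -/
theorem re_iso (g : @FirstOrder.Language.Equiv L ℕ ℕ M M') {n : ℕ}
    (φ : L.BoundedFormula Empty n) (s : Fin n → ℕ) : Re M φ s ↔ Re M' φ (fun i => g (s i)) := by
  have h := @StrongHomClass.realize_boundedFormula L ℕ ℕ M M' Empty n _ _ _ g φ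
    (v := fun e => e.elim) (xs := s)
  have e : (g ∘ (fun e : Empty => e.elim) : Empty → ℕ) = fun e => e.elim := by
    funext e
    exact e.elim
  rw [e] at h
  exact h.symm

theorem Rep.iso (h : Rep S M K Θ) (h' : Rep S' M' K' Θ') (hM : SIso M M') (k : K ≃ K') :
    SIso S S' := by
  obtain ⟨g⟩ := hM
  let g0 : ℕ ≃ ℕ := @FirstOrder.Language.Equiv.toEquiv L ℕ ℕ M M' g
  let γ : Pt K ≃ Pt K' := Equiv.sumCongr (Equiv.sumCongr g0
    (Equiv.sigmaCongrRight fun n => Equiv.arrowCongr (Equiv.refl (Fin n)) g0)) k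
  have hel : ∀ a, γ (el a) = el (g0 a) := fun a => rfl
  have htu : ∀ {n : ℕ} (s : Fin n → ℕ), γ (tu s) = tu (fun i => g0 (s i)) := fun s => rfl
  have hel' : ∀ v a, γ v = el a ↔ v = el (g0.symm a) := by
    intro v a
    constructor
    · intro h
      apply γ.injective
      rw [h, hel, Equiv.apply_symm_apply]
    · rintro rfl
      rw [hel, Equiv.apply_symm_apply]
  have htu' : ∀ {n : ℕ} v (s : Fin n → ℕ), γ v = tu s ↔ v = tu (fun i => g0.symm (s i)) := by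
    intro n v s
    constructor
    · intro h
      apply γ.injective
      rw [h, htu]
      simp only [Equiv.apply_symm_apply]
    · rintro rfl
      rw [htu]
      simp only [Equiv.apply_symm_apply]
  let σ : Equiv.Perm ℕ := (Θ.symm.trans γ).trans Θ'
  have hσ : ∀ v, σ (Θ v) = Θ' (γ v) := fun v => by
    simp only [σ, Equiv.trans_apply, Equiv.symm_apply_apply]
  have un : ∀ (R : (LE L).Relations 1), (∀ v, Un S' R (Θ' (γ v)) ↔ Un S R (Θ v)) →
      ∀ v : Fin 1 → ℕ, @Structure.RelMap (LE L) ℕ S' 1 R (fun i => σ (v i)) ↔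
        @Structure.RelMap (LE L) ℕ S 1 R v := by
    intro R hR v
    obtain ⟨w, hw⟩ := Θ.surjective (v 0)
    have h1 := hR w
    have e1 : (fun i => σ (v i)) = fun _ : Fin 1 => Θ' (γ w) := by
      funext i
      rw [Subsingleton.elim i 0, ← hw, hσ]
    have e2 : v = fun _ : Fin 1 => Θ w := by
      funext i
      rw [Subsingleton.elim i 0, ← hw]
    rw [e1]
    conv_rhs => rw [e2]
    exact h1
  have bi : ∀ (R : (LE L).Relations 2), (∀ v w, Bi S' R (Θ' (γ v)) (Θ' (γ w)) ↔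
      Bi S R (Θ v) (Θ w)) →
      ∀ v : Fin 2 → ℕ, @Structure.RelMap (LE L) ℕ S' 2 R (fun i => σ (v i)) ↔
        @Structure.RelMap (LE L) ℕ S 2 R v := by
    intro R hR v
    obtain ⟨w, hw⟩ := Θ.surjective (v 0)
    obtain ⟨w', hw'⟩ := Θ.surjective (v 1)
    have h1 := hR w w'
    have e1 : (fun i => σ (v i)) = ![Θ' (γ w), Θ' (γ w')] := by
      funext i
      fin_cases i
      · show σ (v 0) = Θ' (γ w)
        rw [← hw, hσ]
      · show σ (v 1) = Θ' (γ w')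
        rw [← hw', hσ]
    have e2 : v = ![Θ w, Θ w'] := by
      funext i
      fin_cases i
      · exact hw.symm
      · exact hw'.symm
    rw [e1]
    conv_rhs => rw [e2]
    exact h1
  obtain ⟨f, -⟩ := siso_of (S := S) (S' := S') σ (fun n R v => by
    cases R with
    | X =>
      refine un Sy.X (fun v => ?_) v
      show X S' (Θ' (γ v)) ↔ X S (Θ v)
      rw [h.hX, h'.hX]
      exact ⟨fun ⟨a, ha⟩ => ⟨_, (hel' v a).1 ha⟩, fun ⟨a, ha⟩ => ⟨g0 a, by rw [ha, hel]⟩⟩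
    | V n =>
      refine un (Sy.V n) (fun v => ?_) v
      show V S' n (Θ' (γ v)) ↔ V S n (Θ v)
      rw [h.hV, h'.hV]
      exact ⟨fun ⟨a, ha⟩ => ⟨_, (htu' v a).1 ha⟩, fun ⟨a, ha⟩ => ⟨_, by rw [ha, htu]⟩⟩
    | U n φ =>
      refine un (Sy.U n φ) (fun v => ?_) v
      show U S' n φ (Θ' (γ v)) ↔ U S n φ (Θ v)
      rw [h.hU, h'.hU]
      constructor
      · rintro ⟨s, h1, h2⟩
        refine ⟨_, (htu' v s).1 h1, ?_⟩
        rw [re_iso g]
        have : (fun i => g (g0.symm (s i))) = s := by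
          funext i
          exact g0.apply_symm_apply (s i)
        rw [this]
        exact h2
      · rintro ⟨s, h1, h2⟩
        refine ⟨_, by rw [h1, htu], ?_⟩
        rw [re_iso g] at h2
        exact h2
    | P n i =>
      refine bi (Sy.P n i) (fun v w => ?_) v
      show Pr S' n i (Θ' (γ v)) (Θ' (γ w)) ↔ Pr S n i (Θ v) (Θ w)
      rw [h.hP, h'.hP]
      constructor
      · rintro ⟨s, h1, h2⟩
        exact ⟨_, (htu' v s).1 h1, (hel' w _).1 h2⟩
      · rintro ⟨s, rfl, rfl⟩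
        exact ⟨_, htu s, rfl⟩
    | R n =>
      refine bi (Sy.R n) (fun v w => ?_) v
      show Rs S' n (Θ' (γ v)) (Θ' (γ w)) ↔ Rs S n (Θ v) (Θ w)
      rw [h.hR, h'.hR]
      constructor
      · rintro ⟨s, h1, h2⟩
        exact ⟨_, (htu' v s).1 h1, (htu' w _).1 h2⟩
      · rintro ⟨s, rfl, rfl⟩
        exact ⟨_, htu s, htu _⟩)
  exact ⟨f⟩

/-- the interpreted structure -/
theorem Rep.D [L.IsRelational] (h : Rep S M K Θ) : SIso ((I L).D S) M := by
  have hd : ∀ a, X S (Θ (el a)) := fun a => (h.hX _).2 ⟨a, rfl⟩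
  let π : ℕ ≃ {u // (I L).dom S u} := Equiv.ofBijective (fun a => ⟨Θ (el a), hd a⟩) ⟨by
    intro a b hab
    exact Sum.inl_injective (Sum.inl_injective (Θ.injective (congrArg Subtype.val hab))), by
    rintro ⟨u, hu⟩
    obtain ⟨v, rfl⟩ := Θ.surjective u
    obtain ⟨a, rfl⟩ := (h.hX v).1 hu
    exact ⟨a, rfl⟩⟩
  refine (I L).D_iso h.W π (fun {l} Q u => ?_)
  show _ ↔ ∃ s, V S l s ∧ (∀ k, Pr S l k s (Θ (el (u k)))) ∧
    U S l (BoundedFormula.rel Q fun k => Term.var (Sum.inr k)) s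
  constructor
  · intro h1
    refine ⟨Θ (tu u), (h.hV _ _).2 ⟨u, rfl⟩, fun k => (h.hP' _ _ _).2 rfl, ?_⟩
    rw [h.hU', re_rel]
    exact h1
  · rintro ⟨s, h1, h2, h3⟩
    obtain ⟨v, rfl⟩ := Θ.surjective s
    obtain ⟨s, rfl⟩ := (h.hV _ v).1 h1
    rw [h.hU', re_rel] at h3
    have : s = u := by
      funext k
      exact (Sum.inl_injective (Sum.inl_injective ((h.hP' _ _ _).1 (h2 k)))).symm
    rw [← this]
    exact h3

end

/-- junk -/
def Jk (S : (LE L).Structure ℕ) (u : ℕ) : Prop := ¬ X S u ∧ ∀ n, ¬ V S n u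

section
variable [L.IsRelational] {S : (LE L).Structure ℕ}

theorem D_rel (h : W S) {e : ℕ ≃ {u // (I L).dom S u}}
    (he : ∀ n u, Nth ((I L).dom S) n u ↔ (e n : ℕ) = u) {l : ℕ} (Q : L.Relations l)
    (v : Fin l → ℕ) : @Structure.RelMap L ℕ ((I L).D S) l Q v ↔
      ∃ s, V S l s ∧ (∀ k, Pr S l k s (e (v k))) ∧
        U S l (BoundedFormula.rel Q fun k => Term.var (Sum.inr k)) s :=
  (I L).rel_iff (S := S) h Q (v := v) (u := fun k => (e (v k) : ℕ)) fun i => (he _ _).2 rfl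

/-- truth in the interpreted structure -/
theorem sem (h : W S) {e : ℕ ≃ {u // (I L).dom S u}}
    (he : ∀ n u, Nth ((I L).dom S) n u ↔ (e n : ℕ) = u) {n : ℕ}
    (φ : L.BoundedFormula Empty n) : ∀ (s : ℕ) (v : Fin n → ℕ), V S n s →
      (∀ i, Pr S n i s (e (v i))) → (U S n φ s ↔ Re ((I L).D S) φ v) := by
  induction φ with
  | falsum =>
    intro s v hs hv
    exact ⟨fun h1 => h.fa _ _ h1, fun h1 => h1.elim⟩
  | @equal n t1 t2 =>
    intro s v hs hv
    rw [h.eq, re_eq]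
    constructor
    · rintro ⟨-, x, h1, h2⟩
      have h3 := h.pu _ _ _ _ _ h1 (hv (vi t1))
      have h4 := h.pu _ _ _ _ _ h2 (hv (vi t2))
      exact e.injective (Subtype.ext (h3.symm.trans h4))
    · intro h1
      refine ⟨hs, _, hv (vi t1), ?_⟩
      rw [h1]
      exact hv _
  | @rel n l Q ts =>
    intro s v hs hv
    rw [re_rel, D_rel h he]
    constructor
    · intro h1
      obtain ⟨t, h2, h3⟩ := h.tup l (fun k => (e (v (vi (ts k))) : ℕ)) fun k =>
        (e (v (vi (ts k)))).2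
      refine ⟨t, h2, h3, ?_⟩
      exact (h.rl l Q n l ts (fun k => Term.var (Sum.inr k)) s t hs h2
        fun k => ⟨_, hv _, h3 k⟩).1 h1
    · rintro ⟨t, h2, h3, h1⟩
      exact (h.rl l Q n l ts (fun k => Term.var (Sum.inr k)) s t hs h2
        fun k => ⟨_, hv _, h3 k⟩).2 h1
  | @imp n φ ψ h1 h2 =>
    intro s v hs hv
    rw [h.im, h1 s v hs hv, h2 s v hs hv]
    exact ⟨fun h => h.2, fun h => ⟨hs, h⟩⟩
  | @all n φ ih =>
    intro s v hs hv
    rw [h.al]
    constructor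
    · rintro ⟨-, h1⟩ a
      obtain ⟨t, h2, h3⟩ := h.cat n s (e a) hs (e a).2
      obtain ⟨h4, -, h5⟩ := (h.rs n t s).1 h2
      refine (ih t (Fin.snoc (α := fun _ => ℕ) v a) h4 fun i => ?_).1 (h1 t h2)
      refine Fin.lastCases ?_ (fun i => ?_) i
      · rw [Fin.snoc_last]
        exact h3
      · rw [Fin.snoc_castSucc]
        obtain ⟨x, h6, h7⟩ := h5 i
        rw [h.pu _ _ _ _ _ (hv i) h6]
        exact h7
    · intro h1
      refine ⟨hs, fun t ht => ?_⟩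
      obtain ⟨h4, -, h5⟩ := (h.rs n t s).1 ht
      obtain ⟨x, hx⟩ := h.pe (n + 1) (Fin.last n) t h4
      obtain ⟨a, ha⟩ := e.surjective ⟨x, (h.pt _ _ _ _ hx).2⟩
      have ha' : (e a : ℕ) = x := congrArg Subtype.val ha
      refine (ih t (Fin.snoc (α := fun _ => ℕ) v a) h4 fun i => ?_).2 (h1 a)
      refine Fin.lastCases ?_ (fun i => ?_) i
      · rw [Fin.snoc_last, ha']
        exact hx
      · rw [Fin.snoc_castSucc]
        obtain ⟨x, h6, h7⟩ := h5 i
        rw [h.pu _ _ _ _ _ (hv i) h6]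
        exact h7

/-- every structure satisfying the axioms is a structure of tuples -/
theorem W.rep (h : W S) : ∃ Θ : Pt {u // Jk S u} ≃ ℕ, Rep S ((I L).D S) {u // Jk S u} Θ := by
  classical
  obtain ⟨e, he⟩ := (I L).nth (S := S) h
  have htup : ∀ p : (Σ n, (Fin n → ℕ)), ∃ s, V S p.1 s ∧ ∀ i, Pr S p.1 i s (e (p.2 i)) :=
    fun p => h.tup p.1 (fun i => (e (p.2 i) : ℕ)) fun i => (e (p.2 i)).2
  choose τ hτ1 hτ2 using htup
  let θ : Pt {u // Jk S u} → ℕ := Sum.elim (Sum.elim (fun a => (e a : ℕ)) τ) Subtype.val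
  have hX : ∀ v, X S (θ v) ↔ ∃ a, v = el a := by
    rintro ((a | p) | k)
    · exact ⟨fun _ => ⟨a, rfl⟩, fun _ => (e a).2⟩
    · exact ⟨fun h1 => absurd (hτ1 p) (h.xv _ _ h1), fun ⟨a, ha⟩ => absurd ha (by simp)⟩
    · exact ⟨fun h1 => absurd h1 k.2.1, fun ⟨a, ha⟩ => absurd ha (by simp)⟩
  have hV : ∀ n v, V S n (θ v) ↔ ∃ s : Fin n → ℕ, v = tu s := by
    rintro n ((a | p) | k)
    · exact ⟨fun h1 => absurd h1 (h.xv _ _ (e a).2), fun ⟨s, hs⟩ => absurd hs (by simp)⟩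
    · constructor
      · intro h1
        have hn : p.1 = n := by
          by_contra hne
          exact h.vv _ _ hne _ (hτ1 p) h1
        obtain ⟨m, s⟩ := p
        dsimp only at hn
        subst hn
        exact ⟨s, rfl⟩
      · rintro ⟨s, hs⟩
        have : p = ⟨n, s⟩ := Sum.inr_injective (Sum.inl_injective hs)
        rw [this]
        exact hτ1 ⟨n, s⟩
    · exact ⟨fun h1 => absurd h1 (k.2.2 n), fun ⟨s, hs⟩ => absurd hs (by simp)⟩
  have hinj : Function.Injective θ := by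
    have key : ∀ {n : ℕ} (s t : Fin n → ℕ), τ ⟨n, s⟩ = τ ⟨n, t⟩ → s = t := by
      intro n s t hst
      funext i
      have h1 := hτ2 ⟨n, s⟩ i
      have h2 := hτ2 ⟨n, t⟩ i
      rw [← hst] at h2
      exact e.injective (Subtype.ext (h.pu _ _ _ _ _ h1 h2))
    intro v w hvw
    by_cases h1 : X S (θ v)
    · obtain ⟨a, rfl⟩ := (hX v).1 h1
      rw [hvw] at h1
      obtain ⟨b, rfl⟩ := (hX w).1 h1
      have : e a = e b := Subtype.ext hvw
      rw [e.injective this]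
    · by_cases h2 : ∃ n, V S n (θ v)
      · obtain ⟨n, h2⟩ := h2
        obtain ⟨s, rfl⟩ := (hV n v).1 h2
        rw [hvw] at h2
        obtain ⟨t, rfl⟩ := (hV n w).1 h2
        rw [key s t hvw]
      · push Not at h2
        have h1' : ¬ X S (θ w) := hvw ▸ h1
        have h2' : ∀ n, ¬ V S n (θ w) := hvw ▸ h2
        rcases v with (a | p) | k
        · exact absurd ((hX _).2 ⟨a, rfl⟩) h1
        · exact absurd ((hV p.1 _).2 ⟨p.2, rfl⟩) (h2 _)
        · rcases w with (a | p) | k'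
          · exact absurd ((hX _).2 ⟨a, rfl⟩) h1'
          · exact absurd ((hV p.1 _).2 ⟨p.2, rfl⟩) (h2' _)
          · exact congrArg Sum.inr (Subtype.ext hvw)
  have hsurj : Function.Surjective θ := by
    intro u
    by_cases h1 : X S u
    · refine ⟨el (e.symm ⟨u, h1⟩), ?_⟩
      show (e (e.symm ⟨u, h1⟩) : ℕ) = u
      rw [Equiv.apply_symm_apply]
    · by_cases h2 : ∃ n, V S n u
      · obtain ⟨n, h2⟩ := h2
        choose x hx using fun i => h.pe n i u h2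
        have hx' : ∀ i, X S (x i) := fun i => (h.pt _ _ _ _ (hx i)).2
        refine ⟨tu (fun i => e.symm ⟨x i, hx' i⟩), ?_⟩
        refine h.tup_unique (x := x) (hτ1 ⟨n, _⟩) h2 (fun i => ?_) hx
        have h3 := hτ2 ⟨n, fun i => e.symm ⟨x i, hx' i⟩⟩ i
        have h4 : (e (e.symm ⟨x i, hx' i⟩) : ℕ) = x i := by rw [Equiv.apply_symm_apply]
        have h5 : Pr S n i (τ ⟨n, fun i => e.symm ⟨x i, hx' i⟩⟩)
          (e (e.symm ⟨x i, hx' i⟩)) := h3
        rw [h4] at h5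
        exact h5
      · push Not at h2
        exact ⟨.inr ⟨u, h1, h2⟩, rfl⟩
  let Θ : Pt {u // Jk S u} ≃ ℕ := Equiv.ofBijective θ ⟨hinj, hsurj⟩
  have hP : ∀ n i v w, Pr S n i (θ v) (θ w) ↔ ∃ s : Fin n → ℕ, v = tu s ∧ w = el (s i) := by
    intro n i v w
    constructor
    · intro h1
      obtain ⟨h2, h3⟩ := h.pt _ _ _ _ h1
      obtain ⟨s, rfl⟩ := (hV n v).1 h2
      obtain ⟨a, rfl⟩ := (hX w).1 h3
      refine ⟨s, rfl, ?_⟩
      have h4 := h.pu _ _ _ _ _ h1 (hτ2 ⟨n, s⟩ i)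
      exact hinj h4
    · rintro ⟨s, rfl, rfl⟩
      exact hτ2 ⟨n, s⟩ i
  refine ⟨Θ, hX, hV, fun n φ v => ?_, hP, fun n v w => ?_⟩
  · constructor
    · intro h1
      obtain ⟨s, rfl⟩ := (hV n v).1 (h.ut _ _ _ h1)
      exact ⟨s, rfl, (sem h he φ _ s (hτ1 ⟨n, s⟩) fun i => hτ2 ⟨n, s⟩ i).1 h1⟩
    · rintro ⟨s, rfl, h1⟩
      exact (sem h he φ _ s (hτ1 ⟨n, s⟩) fun i => hτ2 ⟨n, s⟩ i).2 h1
  · show Rs S n (θ v) (θ w) ↔ _
    constructor
    · intro h1
      obtain ⟨h2, h3, h4⟩ := (h.rs n _ _).1 h1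
      obtain ⟨t, rfl⟩ := (hV _ v).1 h2
      obtain ⟨s, rfl⟩ := (hV _ w).1 h3
      refine ⟨t, rfl, ?_⟩
      have : s = fun i => t i.castSucc := by
        funext i
        obtain ⟨x, h5, h6⟩ := h4 i
        have h7 := h.pu _ _ _ _ _ h5 (hτ2 ⟨n, s⟩ i)
        have h8 := h.pu _ _ _ _ _ h6 (hτ2 ⟨n + 1, t⟩ i.castSucc)
        exact e.injective (Subtype.ext (h7.symm.trans h8))
      rw [this]
    · rintro ⟨t, rfl, rfl⟩
      exact (h.rs n _ _).2 ⟨hτ1 ⟨n + 1, t⟩, hτ1 ⟨n, _⟩,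
        fun i => ⟨_, hτ2 ⟨n, _⟩ i, hτ2 ⟨n + 1, t⟩ i.castSucc⟩⟩

end

end Pool.Agent.Y558.C3
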